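import Pool.Agent.H15.HLS.Targets

/-!
# Homogeneous latin squares of all large orders: counting intercalates in a block
-/

namespace Pool.Agent.H15.HLS

open Pool.Agent.H51.Homog Pool.Agent.H22.HSQ

theorem emb_inj {v : ℕ} {W T : Type} {g : T → ZMod v} {x c : ZMod v} {r r' : W ⊕ Fib g c}
    (h : (emb x c r : (ZMod v × W) ⊕ T) = emb x c r') : r = r' := by
  rcases r with i | a <;> rcases r' with i' | a' <;> simp only [emb] at h
  · simpa using h
  · simp at h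
  · simp at h
  · exact congrArg Sum.inr (Subtype.ext (Sum.inr_injective h))

theorem emb_isRight {v : ℕ} {W T : Type} {g : T → ZMod v} (x c : ZMod v) (r : W ⊕ Fib g c) :
    (emb x c r : (ZMod v × W) ⊕ T).isRight = r.isRight := by
  rcases r with i | a <;> rfl

theorem block_unique {v : ℕ} {W T : Type} {g : T → ZMod v} {q : ZMod v} (hq : 3 * q = 1)
    {x y x₁ y₁ : ZMod v} {r c : W ⊕ Fib g (x + 3 * y)} {r₁ c₁ : W ⊕ Fib g (x₁ + 3 * y₁)}
    (hr : (emb x _ r : (ZMod v × W) ⊕ T) = emb x₁ _ r₁)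
    (hc : (emb y _ c : (ZMod v × W) ⊕ T) = emb y₁ _ c₁) (h : ¬ InHole r c) :
    x₁ = x ∧ y₁ = y := by
  rcases r with i | ⟨a, ha⟩ <;> rcases r₁ with i₁ | ⟨a₁, ha₁⟩ <;> simp only [emb] at hr
  · have hx : x = x₁ := congrArg Prod.fst (Sum.inl_injective hr)
    subst hx
    rcases c with j | ⟨b, hb⟩ <;> rcases c₁ with j₁ | ⟨b₁, hb₁⟩ <;> simp only [emb] at hc
    · exact ⟨rfl, (congrArg Prod.fst (Sum.inl_injective hc)).symm⟩
    · simp at hc
    · simp at hc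
    · have hbb : b = b₁ := Sum.inr_injective hc
      subst hbb
      have h1 : x + 3 * y = x + 3 * y₁ := hb.symm.trans hb₁
      exact ⟨rfl, by linear_combination (y - y₁) * hq - q * h1⟩
  · simp at hr
  · simp at hr
  · have haa : a = a₁ := Sum.inr_injective hr
    subst haa
    have h1 : x + 3 * y = x₁ + 3 * y₁ := ha.symm.trans ha₁
    rcases c with j | ⟨b, hb⟩ <;> rcases c₁ with j₁ | ⟨b₁, hb₁⟩ <;> simp only [emb] at hc
    · have hy : y = y₁ := congrArg Prod.fst (Sum.inl_injective hc)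
      subst hy
      exact ⟨by linear_combination -h1, rfl⟩
    · simp at hc
    · simp at hc
    · exact absurd ⟨rfl, rfl⟩ h

theorem pf_CNB (hBLK : T_BLK) (hEXB : T_EXB) (hINF : T_INF) (hINT : T_INT) : T_CNB := by
  intro v _ W T _ _ g h q A M hG ρ κ hh
  obtain ⟨x, y, r, c, rfl, rfl, hrc⟩ := hEXB v W T g q hG.inv ρ κ hh
  have hB := fun r c hrc => hBLK v W T g q A M hG.inv x y r c hrc
  have key : {p : ((ZMod v × W) ⊕ T) × ((ZMod v × W) ⊕ T) | p.1 ≠ emb x _ r ∧ p.2 ≠ emb y _ c ∧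
      sq q A M p.1 p.2 = sq q A M (emb x _ r) (emb y _ c) ∧
      sq q A M p.1 (emb y _ c) = sq q A M (emb x _ r) p.2} =
      (fun p : (W ⊕ Fib g (x + 3 * y)) × (W ⊕ Fib g (x + 3 * y)) =>
        ((emb x _ p.1 : (ZMod v × W) ⊕ T), (emb y _ p.2 : (ZMod v × W) ⊕ T))) ''
        HSet (A (x + 3 * y)) r c := by
    ext ⟨ρ', κ'⟩
    constructor
    · rintro ⟨h1, h2, h3, h4⟩
      simp only at h1 h2 h3 h4
      have n1 : ¬ InHole ρ' κ' := fun hn =>
        hh (hINF v W T g h q A M hG ρ' κ' _ _ h3.symm h4.symm hn)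
      have n2 : ¬ InHole ρ' (emb y _ c : (ZMod v × W) ⊕ T) := fun hn =>
        hh ⟨(hINF v W T g h q A M hG ρ' _ _ κ' h4.symm h3.symm hn).1, hn.2⟩
      have n3 : ¬ InHole (emb x _ r : (ZMod v × W) ⊕ T) κ' := fun hn =>
        hh ⟨hn.1, (hINF v W T g h q A M hG _ κ' ρ' _ h4 h3 hn).2⟩
      obtain ⟨x₁, y₁, r₁, c₁, r', c', e1, e2, e3, e4, m1, m2, m3, m4⟩ :=
        hINT v W T g h q A M hG _ _ ρ' κ' h3 h4 hh n1 n2 n3
      obtain ⟨hx, hy⟩ := block_unique hG.inv e1 e2 hrc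
      subst hx hy
      have hr := emb_inj e1
      have hc := emb_inj e2
      subst hr hc e3 e4
      rw [hB _ _ m1, hB _ _ m2] at h3
      rw [hB _ _ m3, hB _ _ m4] at h4
      exact ⟨(r', c'), ⟨fun hr => h1 (congrArg _ hr), fun hc => h2 (congrArg _ hc), emb_inj h3,
        emb_inj h4, m2, m3, m4⟩, rfl⟩
    · rintro ⟨⟨r', c'⟩, ⟨h1, h2, h3, h4, m2, m3, m4⟩, he⟩
      simp only [Prod.mk.injEq] at he h1 h2 h3 h4 m2 m3 m4
      obtain ⟨rfl, rfl⟩ := he
      refine ⟨fun hr => h1 (emb_inj hr), fun hc => h2 (emb_inj hc), ?_, ?_⟩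
      · simp only
        rw [hB _ _ m2, hB _ _ hrc, h3]
      · simp only
        rw [hB _ _ m3, hB _ _ m4, h4]
  unfold intercalatesAt
  rw [key, Set.ncard_image_of_injective]
  · exact (hG.hol _).cnt r c hrc
  · rintro ⟨p1, p2⟩ ⟨p1', p2'⟩ hp
    simp only [Prod.mk.injEq] at hp
    rw [emb_inj hp.1, emb_inj hp.2]

end Pool.Agent.H15.HLS
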