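import Pool.Agent.H22.HSQ.Fin

/-!
# Homogeneous latin squares of all large orders: definitions

`IsLatin`, `intercalatesAt`, `IsHomogeneous` are in `Pool.Agent.H51.Homog.Defs`, `IsOrder` is in
`Pool.Agent.H22.HSQ.Defs`.
-/

namespace Pool.Agent.H15.HLS

open Pool.Agent.H51.Homog Pool.Agent.H22.HSQ

/-- The cell `(r, c)` lies in the hole (the square on the right summands). -/
def InHole {W H : Type} (r c : W ⊕ H) : Prop := r.isRight ∧ c.isRight

/-- The intercalates of `A` through the cell `(r, c)` (given by their other row and column) none of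
whose four cells lies in the hole. -/
def HSet {W H : Type} (A : W ⊕ H → W ⊕ H → W ⊕ H) (r c : W ⊕ H) : Set ((W ⊕ H) × (W ⊕ H)) :=
  {p | p.1 ≠ r ∧ p.2 ≠ c ∧ A p.1 p.2 = A r c ∧ A p.1 c = A r p.2 ∧
    ¬ InHole p.1 p.2 ∧ ¬ InHole p.1 c ∧ ¬ InHole r p.2}

/-- `A` is a latin square on `W ⊕ H` with a subsquare (the hole) on `H`, such that every cell
outside the hole lies in exactly `h` intercalates without cells in the hole. -/
structure Hol {W H : Type} (h : ℕ) (A : W ⊕ H → W ⊕ H → W ⊕ H) : Prop where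
  latin : IsLatin A
  hole : ∀ a b : H, (A (Sum.inr a) (Sum.inr b)).isRight
  cnt : ∀ r c, ¬ InHole r c → (HSet A r c).ncard = h

/-- a holey square with `|W| = w`, `|H| = s` exists -/
def IsHol (h w s : ℕ) : Prop :=
  ∃ A : Fin w ⊕ Fin s → Fin w ⊕ Fin s → Fin w ⊕ Fin s, Hol h A

/-- The points of `T` in the class `c`. -/
abbrev Fib {v : ℕ} {T : Type} (g : T → ZMod v) (c : ZMod v) : Type := {t : T // g t = c}

/-- The rows (columns, symbols) of a block: `W` copies over the point `x` and the points of `T` in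
the class `c`. -/
def emb {v : ℕ} {W T : Type} {g : T → ZMod v} (x c : ZMod v) : W ⊕ Fib g c → (ZMod v × W) ⊕ T
  | Sum.inl i => Sum.inl (x, i)
  | Sum.inr a => Sum.inr a.1

/-- The glued square: the block of `(x, y)` has the rows over `x`, the columns over `y`, the symbols
over `x + y` and the class `x + 3 y`; it is filled with `A (x + 3 y)`.  The square over `T` is `M`.
The parameter `q` is the inverse of `3`. -/
def sq {v : ℕ} {W T : Type} {g : T → ZMod v} (q : ZMod v)
    (A : ∀ c, W ⊕ Fib g c → W ⊕ Fib g c → W ⊕ Fib g c) (M : T → T → T) :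
    (ZMod v × W) ⊕ T → (ZMod v × W) ⊕ T → (ZMod v × W) ⊕ T
  | Sum.inl (x, i), Sum.inl (y, j) =>
      emb (x + y) (x + 3 * y) (A (x + 3 * y) (Sum.inl i) (Sum.inl j))
  | Sum.inl (x, i), Sum.inr t =>
      emb (x + (g t - x) * q) (g t) (A (g t) (Sum.inl i) (Sum.inr ⟨t, rfl⟩))
  | Sum.inr s, Sum.inl (y, j) =>
      emb (g s - 3 * y + y) (g s) (A (g s) (Sum.inr ⟨s, rfl⟩) (Sum.inl j))
  | Sum.inr s, Sum.inr t => Sum.inr (M s t)

end Pool.Agent.H15.HLS
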