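import Pool.Agent.H15.HLS.Targets

/-!
# Homogeneous latin squares of all large orders: the gluing theorem for orders
-/

namespace Pool.Agent.H15.HLS

open Pool.Agent.H51.Homog Pool.Agent.H22.HSQ

theorem pf_GLO (hLAT : T_LAT) (hCNB : T_CNB) (hCNH : T_CNH) (hTRO : T_TRO) (hTRH : T_TRH)
    (hHOZ : T_HOZ) (hHOE : T_HOE) (hMSQ : T_MSQ) (hGLF : T_GLF) : T_GLO := by
  intro h s₁ s₂ w k a₁ a₂ v o1 o2 ow hs1 hs2 d1 d2 hk1 hkodd ot hv30 hv
  have hk0 : 0 < k := by omega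
  have : NeZero k := ⟨by omega⟩
  have : NeZero v := ⟨by rintro rfl; simp at hv⟩
  have hcard : Fintype.card ((Fin a₁ × Fin s₁) ⊕ (Fin a₂ × Fin s₂)) = a₁ * s₁ + a₂ * s₂ := by
    simp
  obtain ⟨B, hB1, hB2⟩ := (hTRO ((Fin a₁ × Fin s₁) ⊕ (Fin a₂ × Fin s₂)) h _ hcard).1 ot
  obtain ⟨M, hM1, hM2, hM3⟩ := hMSQ _ h k B hk1 hkodd hB1 hB2
  obtain ⟨g, hg1, hg2⟩ := hGLF k a₁ s₁ a₂ s₂ v hk0 hv
  have hv3 : Nat.Coprime 3 v := by
    have h1 : Nat.Coprime v (3 * 10) := hv30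
    exact (Nat.Coprime.coprime_mul_right_right h1).symm
  have hq : (3 : ZMod v) * ((3 : ℕ) : ZMod v)⁻¹ = 1 := by
    have := ZMod.coe_mul_inv_eq_one 3 hv3
    simpa using this
  have hpiece : ∀ c : ZMod v, ∃ A : Fin w ⊕ Fib g c → Fin w ⊕ Fib g c → Fin w ⊕ Fib g c,
      Hol h A := by
    intro c
    classical
    have hf : Fintype.card (Fib g c) = Nat.card (Fib g c) := Nat.card_eq_fintype_card.symm
    rcases hg1 c with h0 | h0 | h0
    · exact hTRH (Fin w) (Fib g c) h w 0 (Fintype.card_fin w) (by rw [hf, h0]) (hHOE h w ow)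
    · obtain ⟨m, hm⟩ := d1
      refine hTRH (Fin w) (Fib g c) h w s₁ (Fintype.card_fin w) (by rw [hf, h0]) ?_
      have : w = 2 * m * s₁ := by rw [hm]; ring
      rw [this]
      exact hHOZ h s₁ m o1
    · obtain ⟨m, hm⟩ := d2
      refine hTRH (Fin w) (Fib g c) h w s₂ (Fintype.card_fin w) (by rw [hf, h0]) ?_
      have : w = 2 * m * s₂ := by rw [hm]; ring
      rw [this]
      exact hHOZ h s₂ m o2
  choose A hA using hpiece
  have hgood : Good h ((3 : ℕ) : ZMod v)⁻¹ A M := by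
    refine ⟨hv30, hq, hA, hM1, hM2, ?_⟩
    intro s t hst
    obtain ⟨e1, e2⟩ := hg2 s t (M s t) hst
    obtain ⟨i, a⟩ := s
    obtain ⟨j, b⟩ := t
    simp only at e1 e2
    subst e1
    exact hM3 i a b e2.symm
  have hfin : Fintype.card ((ZMod v × Fin w) ⊕
      (ZMod k × ((Fin a₁ × Fin s₁) ⊕ (Fin a₂ × Fin s₂)))) =
      w * v + k * (a₁ * s₁ + a₂ * s₂) := by
    simp [ZMod.card, mul_comm]
  rw [hTRO _ h _ hfin]
  refine ⟨sq ((3 : ℕ) : ZMod v)⁻¹ A M, hLAT v _ _ g h _ A M hgood, ?_⟩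
  intro ρ κ
  by_cases hh : InHole ρ κ
  · obtain ⟨hr, hc⟩ := hh
    rcases ρ with ρ | s
    · simp at hr
    rcases κ with κ | t
    · simp at hc
    exact hCNH v _ _ g h _ A M hgood s t
  · exact hCNB v _ _ g h _ A M hgood ρ κ hh

end Pool.Agent.H15.HLS
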