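import Pool.Agent.H15.HLS.Targets
import Pool.Agent.H22.HSQ.Nec

/-!
# Homogeneous latin squares of all large orders: the main theorem from the pieces
-/

namespace Pool.Agent.H15.HLS

open Pool.Agent.H51.Homog Pool.Agent.H22.HSQ

theorem pf_MAI (hGLO : T_GLO) (hAPR : T_APR) (hSEL : T_SEL) (hREP : T_REP) : T_MAI := by
  intro h
  obtain ⟨s₁, s₂, w, hs1, hs2, hw, o1, o2, ow, d1, d2, hg⟩ := hSEL h
  set g := Nat.gcd s₁ s₂ with hgdef
  obtain ⟨k, hk, kp⟩ := Nat.exists_infinite_primes (30 * w + 1)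
  have hkc : Nat.Coprime k (30 * w) := by
    rw [Nat.Prime.coprime_iff_not_dvd kp]
    intro hd
    have := Nat.le_of_dvd (by positivity) hd
    omega
  have hkodd : Odd k := kp.odd_of_ne_two (by omega)
  have hk1 : 1 < k := kp.one_lt
  have gw : g ∣ w :=
    (Nat.gcd_dvd_left s₁ s₂).trans ((Dvd.intro_left 2 rfl).trans d1)
  have hadm : ∀ n, g ∣ n → 4 ∣ n ^ 2 * h := by
    intro n hn
    by_cases h4 : 4 ∣ h
    · exact Dvd.dvd.mul_left h4 _
    · rw [hg, if_neg h4] at hn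
      obtain ⟨m, rfl⟩ := hn
      exact ⟨m ^ 2 * h, by ring⟩
  have hadm' : ∀ n, 4 ∣ n ^ 2 * h → g ∣ n := by
    intro n hn
    by_cases h4 : 4 ∣ h
    · rw [hg, if_pos h4]
      exact one_dvd _
    · rw [hg, if_neg h4]
      by_contra ho
      have h2 : Nat.Coprime 2 n := (Nat.Prime.coprime_iff_not_dvd Nat.prime_two).2 ho
      have h3 : Nat.Coprime 4 (n ^ 2) := by
        have : Nat.Coprime (2 ^ 2) (n ^ 2) := Nat.Coprime.pow 2 2 h2
        simpa using this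
      exact h4 (h3.dvd_of_dvd_mul_left hn)
  have key : ∀ ρ : ℕ, ∃ t₀ a₁ a₂ : ℕ, g ∣ ρ → (k * t₀ ≡ ρ [MOD 30 * w] ∧
      t₀ = a₁ * s₁ + a₂ * s₂ ∧ IsOrder h t₀) := by
    intro ρ
    by_cases hρ : g ∣ ρ
    swap
    · exact ⟨0, 0, 0, fun hc => absurd hc hρ⟩
    obtain ⟨k', hk'⟩ : ∃ k' : ℕ, k * k' ≡ 1 [MOD 30 * w] := by
      obtain ⟨y, hy⟩ := Nat.exists_mul_mod_eq_one_of_coprime (k := 30 * w) (n := k) hkc (by omega)
      refine ⟨y, ?_⟩
      rw [Nat.ModEq, hy.2, Nat.mod_eq_of_lt (by omega)]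
    obtain ⟨t₀, ht, hmod, hord⟩ := hAPR h (30 * w) (k' * ρ) (s₁ * s₂) {1} (by positivity)
      (by simp) (by
        intro a ha n hn
        rw [Finset.mem_singleton] at ha
        subst ha
        rw [one_mul]
        apply hadm
        have h1 : g ∣ 30 * w := Dvd.dvd.mul_left gw _
        exact (Nat.ModEq.dvd_iff hn h1).2 (Dvd.dvd.mul_left hρ _))
    have h1 : g ∣ t₀ :=
      (Nat.ModEq.dvd_iff hmod (Dvd.dvd.mul_left gw _)).2 (Dvd.dvd.mul_left hρ _)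
    obtain ⟨a₁, a₂, ha⟩ := hREP s₁ s₂ t₀ hs1 hs2 h1 ht
    refine ⟨t₀, a₁, a₂, fun _ => ⟨?_, ha, ?_⟩⟩
    · calc k * t₀ ≡ k * (k' * ρ) [MOD 30 * w] := Nat.ModEq.mul_left k hmod
        _ = (k * k') * ρ := by ring
        _ ≡ 1 * ρ [MOD 30 * w] := Nat.ModEq.mul_right ρ hk'
        _ = ρ := one_mul ρ
    · simpa using hord 1 (Finset.mem_singleton_self 1)
  choose T A1 A2 hT using key
  refine ⟨∑ ρ ∈ Finset.range (30 * w), (w * (3 * 4 ^ (k * (A1 ρ + A2 ρ))) + k * T ρ + w) + 1,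
    fun n hn => ⟨fun H => four_dvd_of_isOrder H, fun H => ?_⟩⟩
  have gn : g ∣ n := hadm' n H
  set ρ := (n + 29 * w) % (30 * w) with hρdef
  have hρlt : ρ < 30 * w := Nat.mod_lt _ (by positivity)
  have hρmod : ρ ≡ n + 29 * w [MOD 30 * w] := Nat.mod_modEq _ _
  have gρ : g ∣ ρ :=
    (Nat.ModEq.dvd_iff hρmod (Dvd.dvd.mul_left gw _)).2
      (Dvd.dvd.add gn (Dvd.dvd.mul_left gw _))
  obtain ⟨hc, hrep, hord⟩ := hT ρ gρ
  have hle : w * (3 * 4 ^ (k * (A1 ρ + A2 ρ))) + k * T ρ + w < n := by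
    have := Finset.single_le_sum
      (f := fun ρ => w * (3 * 4 ^ (k * (A1 ρ + A2 ρ))) + k * T ρ + w)
      (fun i _ => Nat.zero_le _) (Finset.mem_range.2 hρlt)
    omega
  have hmod : k * T ρ + w ≡ n [MOD 30 * w] := by
    calc k * T ρ + w ≡ ρ + w [MOD 30 * w] := Nat.ModEq.add_right w hc
      _ ≡ n + 29 * w + w [MOD 30 * w] := Nat.ModEq.add_right w hρmod
      _ = n + 30 * w := by ring
      _ ≡ n [MOD 30 * w] := by
        simp [Nat.ModEq]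
  obtain ⟨u, hu⟩ := (Nat.modEq_iff_dvd' (by omega : k * T ρ + w ≤ n)).1 hmod
  have hn' : n = w * (30 * u + 1) + k * (A1 ρ * s₁ + A2 ρ * s₂) := by
    rw [← hrep]
    have h1 : n = 30 * w * u + (k * T ρ + w) := by omega
    rw [h1]
    ring
  rw [hn']
  refine hGLO h s₁ s₂ w k (A1 ρ) (A2 ρ) (30 * u + 1) o1 o2 ow hs1 hs2 d1 d2 hk1 hkodd
    (hrep ▸ hord) ?_ ?_
  · have : Nat.gcd (30 * u + 1) 30 = 1 := by
      rw [Nat.gcd_comm, Nat.gcd_rec]
      simp [Nat.add_mod]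
    exact this
  · by_contra hlt
    push Not at hlt
    have h2 : w * (30 * u + 1) ≤ w * (3 * 4 ^ (k * (A1 ρ + A2 ρ))) := Nat.mul_le_mul_left w hlt
    have h3 : n = w * (30 * u + 1) + k * T ρ := by rw [hrep]; exact hn'
    omega

end Pool.Agent.H15.HLS
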