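import Pool.Agent.H15.HLS.Targets

/-!
# Homogeneous latin squares of all large orders: the orders of the pieces
-/

namespace Pool.Agent.H15.HLS

open Pool.Agent.H51.Homog Pool.Agent.H22.HSQ

theorem pf_SEL (hAPR : T_APR) : T_SEL := by
  intro h
  have hex : ∃ g : ℕ, 0 < g ∧ (g = if 4 ∣ h then 1 else 2) ∧
      (∀ n, 4 ∣ (g * n) ^ 2 * h) ∧ ∀ a n, 4 ∣ (2 * g * a * n) ^ 2 * h := by
    by_cases h4 : 4 ∣ h
    · refine ⟨1, one_pos, by rw [if_pos h4], fun n => Dvd.dvd.mul_left h4 _,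
        fun a n => Dvd.dvd.mul_left h4 _⟩
    · refine ⟨2, two_pos, by rw [if_neg h4], fun n => ⟨n ^ 2 * h, by ring⟩,
        fun a n => ⟨(2 * a * n) ^ 2 * h, by ring⟩⟩
  obtain ⟨g, hg0, hg, d1, d2⟩ := hex
  obtain ⟨a, ha, -, oa⟩ := hAPR h 1 0 1 {g} one_pos (by simpa using hg0) (by
    intro x hx n _
    rw [Finset.mem_singleton] at hx
    subst hx
    exact d1 n)
  have oa' := oa g (Finset.mem_singleton_self g)
  obtain ⟨b, hb, hmod, ob⟩ := hAPR h a 1 1 {g, 2 * g * a} ha (by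
    intro x hx
    rw [Finset.mem_insert, Finset.mem_singleton] at hx
    rcases hx with rfl | rfl
    · exact hg0
    · positivity) (by
    intro x hx n _
    rw [Finset.mem_insert, Finset.mem_singleton] at hx
    rcases hx with rfl | rfl
    · exact d1 n
    · exact d2 a n)
  have ob1 := ob g (by simp)
  have ob2 := ob (2 * g * a) (by simp)
  refine ⟨g * a, g * b, 2 * g * a * b, by positivity, by positivity, by positivity, oa', ob1, ob2,
    ⟨b, by ring⟩, ⟨a, by ring⟩, ?_⟩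
  rw [Nat.gcd_mul_left, ← hg]
  have : Nat.gcd a b = 1 := by
    have h1 : Nat.gcd b a = Nat.gcd 1 a := hmod.gcd_eq
    rw [Nat.gcd_comm, h1]
    exact Nat.gcd_one_left a
  rw [this, mul_one]

end Pool.Agent.H15.HLS
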