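import Pool.Agent.H4.HLS.REL
import Pool.Agent.H14.HLS.EQE
import Pool.Agent.H14.HLS.INF
import Pool.Agent.H15.HLS.CNB
import Pool.Agent.H15.HLS.GLF
import Pool.Agent.H15.HLS.GLO
import Pool.Agent.H15.HLS.MAI
import Pool.Agent.H15.HLS.SEL
import Pool.Agent.H38.HLS.INT
import Pool.Agent.H38.HLS.TRO
import Pool.Agent.H42.HLS.EXB
import Pool.Agent.H42.HLS.HIN
import Pool.Agent.H42.HLS.HOZ
import Pool.Agent.H42.HLS.MSQ
import Pool.Agent.H61.HLS.BLK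
import Pool.Agent.H63.HLS.LAT
import Pool.Agent.H66.HLS.APR
import Pool.Agent.H66.HLS.CNH
import Pool.Agent.H66.HLS.HOE
import Pool.Agent.H66.HLS.REP
import Pool.Agent.H74.HLS.LIN
import Pool.Agent.H86.HLS.TRH

/-!
# Homogeneous latin squares of all large orders: assembly
-/

namespace Pool.Agent.H15.HLS

open Pool.Agent.H51.Homog Pool.Agent.H22.HSQ

theorem hls_main : T_MAI := by
  have hHIN : T_HIN := Pool.Agent.H42.HLS.HIN.pf_HIN
  have hBLK : T_BLK := Pool.Agent.H61.HLS.pf_BLK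
  have hEXB : T_EXB := Pool.Agent.H42.HLS.EXB.pf_EXB
  have hEQE : T_EQE := Pool.Agent.H14.HLS.pf_EQE
  have hLIN : T_LIN := Pool.Agent.H74.HLS.pf_LIN
  have hLAT : T_LAT := Pool.Agent.H63.HLS.pf_LAT hHIN hBLK hEXB hEQE
  have hINF : T_INF := Pool.Agent.H14.HLS.pf_INF hHIN hBLK hEXB hEQE
  have hINT : T_INT := Pool.Agent.H38.HLS.pf_INT hHIN hBLK hEXB hEQE hLIN
  have hCNB : T_CNB := pf_CNB hBLK hEXB hINF hINT
  have hCNH : T_CNH := Pool.Agent.H66.HLS.pf_CNH hINF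
  have hTRO : T_TRO := Pool.Agent.H38.HLS.pf_TRO
  have hTRH : T_TRH := Pool.Agent.H86.HLS.pf_TRH
  have hHOZ : T_HOZ := Pool.Agent.H42.HLS.HOZ.pf_HOZ hTRH
  have hHOE : T_HOE := Pool.Agent.H66.HLS.pf_HOE
  have hMSQ : T_MSQ := Pool.Agent.H42.HLS.MSQ.pf_MSQ
  have hGLF : T_GLF := pf_GLF Pool.Agent.H4.HLS.pf_REL
  have hGLO : T_GLO := pf_GLO hLAT hCNB hCNH hTRO hTRH hHOZ hHOE hMSQ hGLF
  have hAPR : T_APR := Pool.Agent.H66.HLS.pf_APR
  have hSEL : T_SEL := pf_SEL hAPR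
  have hREP : T_REP := Pool.Agent.H66.HLS.pf_REP
  exact pf_MAI hGLO hAPR hSEL hREP

end Pool.Agent.H15.HLS
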