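import Pool.Agent.H15.HLS.Defs

/-!
# Homogeneous latin squares of all large orders: targets
-/

namespace Pool.Agent.H15.HLS

open Pool.Agent.H51.Homog Pool.Agent.H22.HSQ

/-- rows and columns of the hole: symbols outside of the hole -/
def T_HIN : Prop := ∀ (W H : Type) [Fintype W] [Fintype H] (h : ℕ)
  (A : W ⊕ H → W ⊕ H → W ⊕ H), Hol h A →
    (∀ a i, (A (Sum.inr a) (Sum.inl i)).isLeft) ∧ ∀ i a, (A (Sum.inl i) (Sum.inr a)).isLeft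

/-- the glued square on a block -/
def T_BLK : Prop := ∀ (v : ℕ) (W T : Type) (g : T → ZMod v) (q : ZMod v)
  (A : ∀ c, W ⊕ Fib g c → W ⊕ Fib g c → W ⊕ Fib g c) (M : T → T → T), 3 * q = 1 →
    ∀ (x y : ZMod v) (r c : W ⊕ Fib g (x + 3 * y)), ¬ InHole r c →
      sq q A M (emb x _ r) (emb y _ c) = emb (x + y) _ (A (x + 3 * y) r c)

/-- every cell outside of the big hole lies in a block -/
def T_EXB : Prop := ∀ (v : ℕ) (W T : Type) (g : T → ZMod v) (q : ZMod v), 3 * q = 1 →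
    ∀ ρ κ : (ZMod v × W) ⊕ T, ¬ InHole ρ κ →
      ∃ (x y : ZMod v) (r c : W ⊕ Fib g (x + 3 * y)),
        ρ = emb x _ r ∧ κ = emb y _ c ∧ ¬ InHole r c

/-- the rows (columns, symbols) that two blocks have in common -/
def T_EQE : Prop := ∀ (v : ℕ) (W T : Type) (g : T → ZMod v) (x x' c c' : ZMod v)
  (r : W ⊕ Fib g c) (r' : W ⊕ Fib g c'),
    (emb x c r : (ZMod v × W) ⊕ T) = emb x' c' r' →
      (r.isLeft ∧ r'.isLeft ∧ x = x') ∨ (r.isRight ∧ r'.isRight ∧ c = c')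

/-- linear algebra: four blocks which meet like the cells of an intercalate are equal -/
def T_LIN : Prop := ∀ (v : ℕ), Nat.Coprime v 30 →
  ∀ (x₁ y₁ x₂ y₂ x₃ y₃ x₄ y₄ : ZMod v) (a a' b b' s s' : Prop),
    ((¬ a ∧ x₁ = x₂) ∨ (a ∧ x₁ + 3 * y₁ = x₂ + 3 * y₂)) →
    ((¬ a' ∧ x₃ = x₄) ∨ (a' ∧ x₃ + 3 * y₃ = x₄ + 3 * y₄)) →
    ((¬ b ∧ y₁ = y₃) ∨ (b ∧ x₁ + 3 * y₁ = x₃ + 3 * y₃)) →
    ((¬ b' ∧ y₂ = y₄) ∨ (b' ∧ x₂ + 3 * y₂ = x₄ + 3 * y₄)) →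
    ((¬ s ∧ x₁ + y₁ = x₄ + y₄) ∨ (s ∧ x₁ + 3 * y₁ = x₄ + 3 * y₄)) →
    ((¬ s' ∧ x₂ + y₂ = x₃ + y₃) ∨ (s' ∧ x₂ + 3 * y₂ = x₃ + 3 * y₃)) →
    ¬ (a ∧ b) → ¬ (a ∧ b') → ¬ (a ∧ s) → ¬ (a ∧ s') →
    ¬ (a' ∧ b) → ¬ (a' ∧ b') → ¬ (a' ∧ s) → ¬ (a' ∧ s') →
    ¬ (b ∧ s) → ¬ (b ∧ s') → ¬ (b' ∧ s) → ¬ (b' ∧ s') →
      (x₁ = x₂ ∧ y₁ = y₂) ∧ (x₁ = x₃ ∧ y₁ = y₃) ∧ x₁ = x₄ ∧ y₁ = y₄

/-- the hypotheses on a family of pieces -/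
structure Good {v : ℕ} {W T : Type} {g : T → ZMod v} (h : ℕ) (q : ZMod v)
    (A : ∀ c, W ⊕ Fib g c → W ⊕ Fib g c → W ⊕ Fib g c) (M : T → T → T) : Prop where
  cop : Nat.Coprime v 30
  inv : 3 * q = 1
  hol : ∀ c, Hol h (A c)
  latin : IsLatin M
  hom : IsHomogeneous h M
  rel : ∀ s t, g t + 2 * g (M s t) ≠ 3 * g s

/-- the glued square is latin -/
def T_LAT : Prop := ∀ (v : ℕ) [NeZero v] (W T : Type) [Fintype W] [Fintype T] (g : T → ZMod v)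
  (h : ℕ) (q : ZMod v) (A : ∀ c, W ⊕ Fib g c → W ⊕ Fib g c → W ⊕ Fib g c) (M : T → T → T),
    Good h q A M → IsLatin (sq q A M)

/-- if one cell of an intercalate lies in the big hole then also the opposite one -/
def T_INF : Prop := ∀ (v : ℕ) [NeZero v] (W T : Type) [Fintype W] [Fintype T] (g : T → ZMod v)
  (h : ℕ) (q : ZMod v) (A : ∀ c, W ⊕ Fib g c → W ⊕ Fib g c → W ⊕ Fib g c) (M : T → T → T),
    Good h q A M → ∀ ρ κ ρ' κ' : (ZMod v × W) ⊕ T,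
      sq q A M ρ' κ' = sq q A M ρ κ → sq q A M ρ' κ = sq q A M ρ κ' →
      InHole ρ κ → InHole ρ' κ'

/-- an intercalate without cells in the big hole lies in one block -/
def T_INT : Prop := ∀ (v : ℕ) [NeZero v] (W T : Type) [Fintype W] [Fintype T] (g : T → ZMod v)
  (h : ℕ) (q : ZMod v) (A : ∀ c, W ⊕ Fib g c → W ⊕ Fib g c → W ⊕ Fib g c) (M : T → T → T),
    Good h q A M → ∀ ρ κ ρ' κ' : (ZMod v × W) ⊕ T,
      sq q A M ρ' κ' = sq q A M ρ κ → sq q A M ρ' κ = sq q A M ρ κ' →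
      ¬ InHole ρ κ → ¬ InHole ρ' κ' → ¬ InHole ρ' κ → ¬ InHole ρ κ' →
      ∃ (x y : ZMod v) (r c r' c' : W ⊕ Fib g (x + 3 * y)),
        ρ = emb x _ r ∧ κ = emb y _ c ∧ ρ' = emb x _ r' ∧ κ' = emb y _ c' ∧
        ¬ InHole r c ∧ ¬ InHole r' c' ∧ ¬ InHole r' c ∧ ¬ InHole r c'

/-- intercalates through a cell outside of the big hole -/
def T_CNB : Prop := ∀ (v : ℕ) [NeZero v] (W T : Type) [Fintype W] [Fintype T] (g : T → ZMod v)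
  (h : ℕ) (q : ZMod v) (A : ∀ c, W ⊕ Fib g c → W ⊕ Fib g c → W ⊕ Fib g c) (M : T → T → T),
    Good h q A M → ∀ ρ κ : (ZMod v × W) ⊕ T, ¬ InHole ρ κ →
      intercalatesAt (sq q A M) ρ κ = h

/-- intercalates through a cell of the big hole -/
def T_CNH : Prop := ∀ (v : ℕ) [NeZero v] (W T : Type) [Fintype W] [Fintype T] (g : T → ZMod v)
  (h : ℕ) (q : ZMod v) (A : ∀ c, W ⊕ Fib g c → W ⊕ Fib g c → W ⊕ Fib g c) (M : T → T → T),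
    Good h q A M → ∀ s t : T,
      intercalatesAt (sq q A M) (Sum.inr s : (ZMod v × W) ⊕ T) (Sum.inr t) = h

/-- transport of homogeneous squares -/
def T_TRO : Prop := ∀ (α : Type) [Fintype α] (h n : ℕ), Fintype.card α = n →
  (IsOrder h n ↔ ∃ L : α → α → α, IsLatin L ∧ IsHomogeneous h L)

/-- transport of holey squares -/
def T_TRH : Prop := ∀ (W H : Type) [Fintype W] [Fintype H] (h w s : ℕ), Fintype.card W = w →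
  Fintype.card H = s → IsHol h w s → ∃ A : W ⊕ H → W ⊕ H → W ⊕ H, Hol h A

/-- holey squares from inflated cyclic squares of odd order -/
def T_HOZ : Prop := ∀ h s k : ℕ, IsOrder h s → IsHol h (2 * k * s) s

/-- holey squares with the empty hole -/
def T_HOE : Prop := ∀ h w : ℕ, IsOrder h w → IsHol h w 0

/-- powers of four satisfy the relation only trivially -/
def T_REL : Prop := ∀ τ v a b c : ℕ, 3 * 4 ^ τ < v → a < τ → b < τ → c < τ →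
  ((4 ^ b : ℕ) : ZMod v) + 2 * ((4 ^ c : ℕ) : ZMod v) = 3 * ((4 ^ a : ℕ) : ZMod v) →
    a = b ∧ b = c

/-- the square over `T`: an inflated square of odd order without idempotent cells -/
def T_MSQ : Prop := ∀ (β : Type) [Fintype β] (h k : ℕ) (B : β → β → β), 1 < k → Odd k →
  IsLatin B → IsHomogeneous h B → ∃ M : ZMod k × β → ZMod k × β → ZMod k × β,
    IsLatin M ∧ IsHomogeneous h M ∧ ∀ i a b, (M (i, a) (i, b)).1 ≠ i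

/-- a class map: the classes have the sizes `0`, `s₁`, `s₂` and satisfy the relation of `T_REL`
only trivially -/
def T_GLF : Prop := ∀ k a₁ s₁ a₂ s₂ v : ℕ, 0 < k → 3 * 4 ^ (k * (a₁ + a₂)) < v →
  ∃ g : ZMod k × ((Fin a₁ × Fin s₁) ⊕ (Fin a₂ × Fin s₂)) → ZMod v,
    (∀ c, Nat.card (Fib g c) = 0 ∨ Nat.card (Fib g c) = s₁ ∨ Nat.card (Fib g c) = s₂) ∧
    ∀ s t u, g t + 2 * g u = 3 * g s → s.1 = t.1 ∧ t.1 = u.1

/-- the gluing theorem for orders -/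
def T_GLO : Prop := ∀ h s₁ s₂ w k a₁ a₂ v : ℕ, IsOrder h s₁ → IsOrder h s₂ → IsOrder h w →
  0 < s₁ → 0 < s₂ → 2 * s₁ ∣ w → 2 * s₂ ∣ w → 1 < k → Odd k →
  IsOrder h (a₁ * s₁ + a₂ * s₂) →
  Nat.Coprime v 30 → 3 * 4 ^ (k * (a₁ + a₂)) < v →
    IsOrder h (w * v + k * (a₁ * s₁ + a₂ * s₂))

/-- orders in residue classes -/
def T_APR : Prop := ∀ (h m r N : ℕ) (F : Finset ℕ), 0 < m → (∀ a ∈ F, 0 < a) →
  (∀ a ∈ F, ∀ n, n ≡ r [MOD m] → 4 ∣ (a * n) ^ 2 * h) →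
    ∃ n, N ≤ n ∧ n ≡ r [MOD m] ∧ ∀ a ∈ F, IsOrder h (a * n)

/-- the orders of the pieces -/
def T_SEL : Prop := ∀ h : ℕ, ∃ s₁ s₂ w : ℕ, 0 < s₁ ∧ 0 < s₂ ∧ 0 < w ∧ IsOrder h s₁ ∧
  IsOrder h s₂ ∧ IsOrder h w ∧ 2 * s₁ ∣ w ∧ 2 * s₂ ∣ w ∧
  Nat.gcd s₁ s₂ = if 4 ∣ h then 1 else 2

/-- two coin problem -/
def T_REP : Prop := ∀ s₁ s₂ t : ℕ, 0 < s₁ → 0 < s₂ → Nat.gcd s₁ s₂ ∣ t → s₁ * s₂ ≤ t →
  ∃ a₁ a₂ : ℕ, t = a₁ * s₁ + a₂ * s₂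

/-- the theorem -/
def T_MAI : Prop := ∀ h : ℕ, ∃ n₀ : ℕ, ∀ n : ℕ, n₀ ≤ n → (IsOrder h n ↔ 4 ∣ n ^ 2 * h)

end Pool.Agent.H15.HLS
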